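import Pool.Agent.H73.Pas5

set_option autoImplicit false

namespace Pool.Agent.Results.MP_454c72_al.NoCommon

/-- For `1 ≤ k ≤ n`, every common complex root of the Pascalian polynomials `P_n` and `P_(n-k)`,
`P_n(z) = ∑_{j=0}^n C(n, ⌊(n-j)/2⌋) z^(n-j)`, equals `-1`. -/
theorem result (n k : ℕ) (hk : 1 ≤ k) (hkn : k ≤ n) (z : ℂ)
    (h1 : ∑ j ∈ Finset.range (n + 1), ((n.choose ((n - j) / 2) : ℕ) : ℂ) * z ^ (n - j) = 0)
    (h2 : ∑ j ∈ Finset.range (n - k + 1),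
      (((n - k).choose ((n - k - j) / 2) : ℕ) : ℂ) * z ^ (n - k - j) = 0) : z = -1 :=
  Pool.Agent.H73.Pas.main3 n k hk hkn z h1 h2

end Pool.Agent.Results.MP_454c72_al.NoCommon
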